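import Pool.Agent.TH80.OMS.Main

/-!
# `Ω`-stable diffeomorphisms have no homogeneous periodic submanifolds nearby, all classes `C^r`

Let `F` be `Ω`-stable in `Diff^r(N)`, `1 ≤ r ≤ ∞`, `N` a closed manifold. Then no diffeomorphism `G`
close to `F` has a homogeneous periodic submanifold of positive dimension: there is no smooth action
of a compact Lie group `K` on an open set with an infinite orbit `C` which is periodic under `G` and
on which the first return map `G^m` commutes with `K` (for instance a quasi-periodic torus with a
product neighbourhood, or an orbit of a compact Lie group commuting with `G`).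

The proof perturbs `G` near `C` to a diffeomorphism with uncountably many points of one period, and
shows (Kupka-Smale) that an `Ω`-stable diffeomorphism has finitely many points of each period.

Written by helper80. Definitions: `Pool/Agent/TH80/OMS/Defs.lean`, `Pool/Agent/TH80/CLX/Defs.lean`,
`Pool/Agent/H718R2/G0.lean` (strong topology).
-/

set_option autoImplicit false

open scoped Manifold ContDiff Topology

universe u

namespace Pool.Agent.Results.MP_814647_an.NoHomogeneousPeriodic

open Pool.Agent.H718R2.G Pool.Agent.TH80.CLX Pool.Agent.TH80.OMS

/-- Let `F` be `Ω`-stable in `Diff^r(N)`, `1 ≤ r ≤ ∞`. There is a neighbourhood of `F` in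
`Diff^r(N)` in which no diffeomorphism has a homogeneous periodic submanifold of positive
dimension. -/
theorem result (n : ℕ) (N : Type u) [TopologicalSpace N] [T2Space N] [CompactSpace N]
    [ChartedSpace (V n) N] [IsManifold (𝓡 n) ∞ N] (r : ℕ∞) (hr : 1 ≤ r) (F : DiffM n N r)
    (hF : OmegaStable n N r F) :
    ∃ U : Set (DiffM n N r), IsOpen[strongTop n N r] U ∧ F ∈ U ∧
      ∀ G ∈ U, ∀ z : N, ¬ IsHomPerInf n N G z :=
  no_homPer hr hF

end Pool.Agent.Results.MP_814647_an.NoHomogeneousPeriodic
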