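import Pool.Agent.TH80.OMS.Cycle

/-!
# Symmetric `Ω`-stable diffeomorphisms satisfy Axiom A and have no cycles

Let `F` be `Ω`-stable in `Diff^r(N)`, `1 ≤ r ≤ ∞`, and let `F` commute with a smooth action of a
compact connected Lie group `G` on `N`, which near each of its fixed points is linear and transitive
on the spheres. Suppose that the orbit space embeds into the line and `N` is connected, or that `F`
has arbitrarily `C^r`-small equivariant perturbations whose relative periodic points are dense in the
nonwandering set. Then `Ω(F)` is finite, consists of hyperbolic periodic sinks and sources fixed by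
`G`, and `F` has no cycles.

Written by helper80. Definitions: `Pool/Agent/TH80/OMS/Defs.lean`, `Pool/Agent/TH80/OMS/SymDefs.lean`,
`Pool/Agent/TH80/OMS/CycDefs.lean`, `Pool/Agent/TH80/CLX/Defs.lean`, `Pool/Agent/H718R2/G0.lean`
(strong topology).
-/

set_option autoImplicit false

open scoped Manifold ContDiff Topology

universe u

namespace Pool.Agent.Results.MP_814647_an.SymmetricNoCycles

open Pool.Agent.H718R2.G Pool.Agent.TH80.CLX Pool.Agent.TH80.OMS

theorem result (n : ℕ) (N : Type u) [TopologicalSpace N] [T2Space N] [CompactSpace N]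
    [ChartedSpace (V n) N] [IsManifold (𝓡 n) ∞ N] (r : ℕ∞) (hr : 1 ≤ r) (F : DiffM n N r)
    (hF : OmegaStable n N r F) (G : Type) [Group G] [TopologicalSpace G] [CompactSpace G]
    [PreconnectedSpace G] (q : ℕ) (ι : G →* Matrix (Fin q) (Fin q) ℂ) (act : G → N → N)
    (hact : IsLieAction n N ι Set.univ act) (hcom : ∀ g y, F (act g y) = act g (F y))
    (hsph : ∀ p, (∀ g, act g p = p) → IsSphere n N act p)
    (hd : RelDense n N r F act ∨ (ConnectedSpace N ∧ IntervalOrbits act)) :
    OmegaFixed F act ∧ (∀ p ∈ Omega F, IsSinkSource n F p) ∧ FiniteNoCycle F :=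
  cyc_main hr hF hact hcom hsph hd

end Pool.Agent.Results.MP_814647_an.SymmetricNoCycles
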